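import Pool.Agent.helper92.PI.C7

set_option autoImplicit false

/-! # Project PI, module C8: the block lemma, general -/

namespace Pool.Agent.helper87.PI

open Finset

section block

variable {X Y : Type} [Fintype X] [Fintype Y] [DecidableEq X] [DecidableEq Y]

/-- the embedding of the edges at the vertices of `p` -/
def C8_emb (p : X → Prop) : {x // p x} × Y ↪ X × Y :=
  ⟨fun e => (e.1.1, e.2), fun e f h => by
    obtain ⟨⟨x, hx⟩, y⟩ := e
    obtain ⟨⟨x', hx'⟩, y'⟩ := f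
    simp only [Prod.mk.injEq] at h
    obtain ⟨rfl, rfl⟩ := h
    rfl⟩

omit [Fintype X] [Fintype Y] in
theorem C8_dX (p : X → Prop) (K : Finset ({x // p x} × Y)) (x : {x // p x}) :
    dX (K.map (C8_emb p)) x.1 = dX K x := by
  unfold dX
  rw [Finset.filter_map, Finset.card_map]
  congr 1
  apply Finset.filter_congr
  intro e _
  exact Subtype.ext_iff.symm

omit [Fintype X] [Fintype Y] [DecidableEq X] in
theorem C8_dY (p : X → Prop) (K : Finset ({x // p x} × Y)) (y : Y) :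
    dY (K.map (C8_emb p)) y = dY K y := by
  unfold dY
  rw [Finset.filter_map, Finset.card_map]
  congr 1

omit [Fintype X] [Fintype Y] in
theorem C8_ms (p : X → Prop) (K : Finset ({x // p x} × Y)) (y : Y) :
    ms (K.map (C8_emb p)) y = ms K y := by
  have h : ∀ e : {x // p x} × Y, dX (K.map (C8_emb p)) (C8_emb p e).1 = dX K e.1 :=
    fun e => C8_dX p K e.1
  unfold ms
  rw [Finset.filter_map, Finset.sum_map]
  apply Finset.sum_congr rfl
  intro e _
  rw [h]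

omit [Fintype X] [Fintype Y] in
theorem C8_card (p : X → Prop) (K : Finset ({x // p x} × Y)) (x : {x // p x}) (P : Y → Prop)
    [DecidablePred P] :
    ((K.map (C8_emb p)).filter (fun e => e.1 = x.1 ∧ P e.2)).card =
      (K.filter (fun e => e.1 = x ∧ P e.2)).card := by
  rw [Finset.filter_map, Finset.card_map]
  congr 1
  apply Finset.filter_congr
  intro e _
  exact and_congr Subtype.ext_iff.symm Iff.rfl

/-- pi:C8 -- the block lemma, general -/
theorem block (E : Finset (X × Y)) (Δ θ R q s : ℕ) (mlo Λ : ℝ)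
    (hx : ∀ x, dX E x = 0 ∨ (θ ≤ dX E x ∧ dX E x ≤ Δ)) (hθ : 0 < θ) (hy : ∀ y, dY E y ≤ Δ)
    (hRΔ : R ≤ Δ) (hmlo : 0 < mlo)
    (hm : ∀ y, dY E y ≠ 0 → mlo ≤ ms E y ∧ 2 * (R : ℝ) * ms E y ≤ 1)
    (hΛ0 : 0 < Λ) (hΛ : 8 * ((Δ : ℝ) ^ 3 + 1) ≤ Real.exp Λ)
    (hκ : 1000000 * Λ ≤ θ * mlo) (hq : 2 * (q : ℝ) ≤ θ * mlo) (hs : 1600 * Λ ≤ s) :
    ∃ (H : Finset (X × Y)) (t : Y → Option (Fin R)), H ⊆ E ∧ (∀ e ∈ H, t e.2 ≠ none) ∧
      (∀ (x : X), dX E x ≠ 0 → ∀ (j : Fin R),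
        (H.filter (fun e => e.1 = x ∧ t e.2 = some j)).card = q) ∧
      ∀ y, dY H y = 0 ∨ (q - s ≤ dY H y ∧ dY H y ≤ q) := by
  obtain ⟨p, hp⟩ : ∃ p : X → Prop, ∀ x, p x ↔ dX E x ≠ 0 := ⟨fun x => dX E x ≠ 0, fun _ => Iff.rfl⟩
  have hdec : DecidablePred p := fun x => decidable_of_iff _ (hp x).symm
  obtain ⟨E', hmap⟩ : ∃ E' : Finset ({x // p x} × Y), E'.map (C8_emb p) = E := by
    refine ⟨univ.filter (fun e => C8_emb p e ∈ E), ?_⟩
    ext e
    rw [Finset.mem_map]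
    constructor
    · rintro ⟨e', he', rfl⟩
      exact (Finset.mem_filter.1 he').2
    · intro he
      have h0 : p e.1 := by
        rw [hp]
        unfold dX
        rw [Finset.card_ne_zero]
        exact ⟨e, Finset.mem_filter.2 ⟨he, rfl⟩⟩
      exact ⟨(⟨e.1, h0⟩, e.2), Finset.mem_filter.2 ⟨Finset.mem_univ _, he⟩, rfl⟩
  have hx' : ∀ x, θ ≤ dX E' x ∧ dX E' x ≤ Δ := by
    intro x
    rw [← C8_dX p, hmap]
    rcases hx x.1 with h | h
    · exact absurd h ((hp _).1 x.2)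
    · exact h
  have hy' : ∀ y, dY E' y ≤ Δ := by
    intro y
    rw [← C8_dY p, hmap]; exact hy y
  have hm' : ∀ y, dY E' y ≠ 0 → mlo ≤ ms E' y ∧ 2 * (R : ℝ) * ms E' y ≤ 1 := by
    intro y h
    rw [← C8_dY p, hmap] at h
    rw [← C8_ms p, hmap]; exact hm y h
  obtain ⟨H, t, h1, h2, h3, h4⟩ :=
    block0 E' Δ θ R q s mlo Λ hx' hθ hy' hRΔ hmlo hm' hΛ0 hΛ hκ hq hs
  refine ⟨H.map (C8_emb p), t, ?_, ?_, ?_, ?_⟩
  · have h5 : H.map (C8_emb p) ⊆ E'.map (C8_emb p) := Finset.map_subset_map.2 h1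
    rwa [hmap] at h5
  · intro e he
    obtain ⟨e', he', rfl⟩ := Finset.mem_map.1 he
    exact h2 e' he'
  · intro x hx0 j
    rw [← h3 ⟨x, (hp x).2 hx0⟩ j]
    exact C8_card p H ⟨x, (hp x).2 hx0⟩ (fun y => t y = some j)
  · intro y
    rw [C8_dY]; exact h4 y

end block

end Pool.Agent.helper87.PI
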