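import Pool.Agent.helper87.PI.Defs

set_option autoImplicit false

/-! # Project PI, module C1: routing of `n - K n` -/

namespace Pool.Agent.helper87.PI

open Finset

section field

variable {X Y : Type} [Fintype X] [Fintype Y] [DecidableEq X] [DecidableEq Y]

theorem C1_key (φ : Y → X → ℝ) (a : Finset Y) (n : X → ℝ) (U : Finset X) :
    ∑ x ∈ U, (n x - ∑ y ∈ a, φ y x * ∑ x', φ y x' * n x') =
      ∑ x, n x * ((if x ∈ U then 1 else 0) - ∑ y ∈ a, φ y x * ∑ x' ∈ U, φ y x') := by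
  rw [Finset.sum_sub_distrib]
  simp_rw [mul_sub]
  rw [Finset.sum_sub_distrib]
  congr 1
  · simp
  · rw [Finset.sum_comm]
    have h1 : ∀ y ∈ a, ∑ x ∈ U, φ y x * ∑ x', φ y x' * n x' =
        ∑ x', n x' * (φ y x' * ∑ x ∈ U, φ y x) := by
      intro y _
      rw [← Finset.sum_mul, Finset.mul_sum]
      apply Finset.sum_congr rfl
      intro x _
      ring
    rw [Finset.sum_congr rfl h1, Finset.sum_comm]
    apply Finset.sum_congr rfl
    intro x _
    rw [Finset.mul_sum]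

/-- pi:C1 -- routing of `n - K n` -/
theorem route (φ : Y → X → ℝ) (hφ0 : ∀ y x, 0 ≤ φ y x) (a : Finset Y)
    (h1 : ∀ y ∈ a, ∑ x, φ y x = 1) (n : X → ℝ) (f ε : ℝ) (hf : ∀ x, |n x| ≤ f)
    (hS : ∀ x, |S φ a x - 1| ≤ ε) (U : Finset X) :
    |∑ x ∈ U, (n x - ∑ y ∈ a, φ y x * ∑ x', φ y x' * n x')| ≤
      2 * f * bd φ a U + f * ε * (U.card : ℝ) := by
  rw [C1_key]
  rcases isEmpty_or_nonempty X with hX | hX
  · have hU : U = ∅ := Finset.eq_empty_of_isEmpty U
    subst hU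
    simp [bd]
  have hf0 : 0 ≤ f := (abs_nonneg _).trans (hf (Classical.arbitrary X))
  have hP0 : ∀ y, 0 ≤ ∑ x ∈ U, φ y x := fun y => Finset.sum_nonneg fun x _ => hφ0 y x
  have hcompl : ∀ y ∈ a, ∑ x ∈ Uᶜ, φ y x = 1 - ∑ x ∈ U, φ y x := by
    intro y hy
    rw [← h1 y hy, ← Finset.sum_add_sum_compl U]
    ring
  have hP1 : ∀ y ∈ a, 0 ≤ 1 - ∑ x ∈ U, φ y x := by
    intro y hy
    rw [← hcompl y hy]
    exact Finset.sum_nonneg fun x _ => hφ0 y x
  calc |∑ x, n x * ((if x ∈ U then 1 else 0) - ∑ y ∈ a, φ y x * ∑ x' ∈ U, φ y x')|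
      ≤ ∑ x, |n x * ((if x ∈ U then 1 else 0) - ∑ y ∈ a, φ y x * ∑ x' ∈ U, φ y x')| :=
        Finset.abs_sum_le_sum_abs _ _
    _ ≤ ∑ x, f * |(if x ∈ U then 1 else 0) - ∑ y ∈ a, φ y x * ∑ x' ∈ U, φ y x'| := by
        apply Finset.sum_le_sum
        intro x _
        rw [abs_mul]
        exact mul_le_mul_of_nonneg_right (hf x) (abs_nonneg _)
    _ = f * (∑ x ∈ U, |(if x ∈ U then 1 else 0) - ∑ y ∈ a, φ y x * ∑ x' ∈ U, φ y x'| +
          ∑ x ∈ Uᶜ, |(if x ∈ U then 1 else 0) - ∑ y ∈ a, φ y x * ∑ x' ∈ U, φ y x'|) := by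
        rw [← Finset.mul_sum, Finset.sum_add_sum_compl]
    _ ≤ f * ((∑ x ∈ U, (ε + ∑ y ∈ a, φ y x * (1 - ∑ x' ∈ U, φ y x'))) +
          ∑ x ∈ Uᶜ, ∑ y ∈ a, φ y x * ∑ x' ∈ U, φ y x') := by
        apply mul_le_mul_of_nonneg_left _ hf0
        apply add_le_add
        · apply Finset.sum_le_sum
          intro x hx
          rw [if_pos hx]
          have e1 : (1 : ℝ) - ∑ y ∈ a, φ y x * ∑ x' ∈ U, φ y x' =
              (1 - S φ a x) + ∑ y ∈ a, φ y x * (1 - ∑ x' ∈ U, φ y x') := by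
            simp_rw [mul_sub, mul_one]
            rw [Finset.sum_sub_distrib]
            unfold S
            ring
          rw [e1]
          refine (abs_add_le _ _).trans (add_le_add ?_ ?_)
          · rw [abs_sub_comm]; exact hS x
          · rw [abs_of_nonneg]
            exact Finset.sum_nonneg fun y hy => mul_nonneg (hφ0 y x) (hP1 y hy)
        · apply Finset.sum_le_sum
          intro x hx
          rw [if_neg (Finset.mem_compl.1 hx), zero_sub, abs_neg, abs_of_nonneg]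
          exact Finset.sum_nonneg fun y _ => mul_nonneg (hφ0 y x) (hP0 y)
    _ = 2 * f * bd φ a U + f * ε * (U.card : ℝ) := by
        rw [Finset.sum_add_distrib, Finset.sum_const, nsmul_eq_mul, Finset.sum_comm,
          Finset.sum_comm (s := Uᶜ)]
        have e2 : ∑ y ∈ a, ∑ x ∈ U, φ y x * (1 - ∑ x' ∈ U, φ y x') = bd φ a U := by
          unfold bd
          apply Finset.sum_congr rfl
          intro y _
          rw [← Finset.sum_mul]
        have e3 : ∑ y ∈ a, ∑ x ∈ Uᶜ, φ y x * ∑ x' ∈ U, φ y x' = bd φ a U := by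
          unfold bd
          apply Finset.sum_congr rfl
          intro y hy
          rw [← Finset.sum_mul, hcompl y hy]
          ring
        rw [e2, e3]
        ring

end field

end Pool.Agent.helper87.PI
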